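import Pool.Agent.H601.T4.Greedy

/-!
# How many sets of `i` elements have a coincidence?
-/

set_option autoImplicit false

namespace Pool.Agent.H601.T4

open Finset Pool.Agent.H601

/-- the number of the subsets `I` of `F` with `i` elements for which there is a multiset `Q` of `i`
elements of `A`, none of them in `I`, with the same sum -/
noncomputable def coinc (A : Set ℕ) (F : Finset ℕ) (i : ℕ) : ℕ :=
  {I : Finset ℕ | I ⊆ F ∧ I.card = i ∧ ∃ Q : Multiset ℕ, Multiset.card Q = i ∧
    (∀ a ∈ Q, a ∈ A ∧ a ∉ I) ∧ Q.sum = ∑ a ∈ I, a}.ncard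

open Classical in
/-- the same as a finset -/
noncomputable def cset (A : Set ℕ) (F : Finset ℕ) (i : ℕ) : Finset (Finset ℕ) :=
  (F.powersetCard i).filter (fun I => ∃ Q : Multiset ℕ, Multiset.card Q = i ∧
    (∀ a ∈ Q, a ∈ A ∧ a ∉ I) ∧ Q.sum = ∑ a ∈ I, a)

theorem coinc_eq (A : Set ℕ) (F : Finset ℕ) (i : ℕ) : coinc A F i = (cset A F i).card := by
  classical
  unfold coinc
  rw [← Set.ncard_coe_finset]
  congr 1
  ext I
  unfold cset
  rw [Finset.mem_coe, Finset.mem_filter, Finset.mem_powersetCard]
  simp only [Set.mem_ofPred_eq]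
  tauto

theorem local_bound {A : Set ℕ} {h C : ℕ} (hA : ∀ n, rep A h n ≤ C) (H : Finset ℕ)
    (hH : ∀ a ∈ H, a ∈ A) (hc : H.card = h) :
    (∑ i ∈ Finset.Icc 1 h, (cset A H i).card) + 1 ≤ C := by
  classical
  set U : Finset (Finset ℕ) := (Finset.Icc 1 h).biUnion (cset A H) with hU
  have hUc : U.card = ∑ i ∈ Finset.Icc 1 h, (cset A H i).card := by
    rw [hU]
    apply Finset.card_biUnion
    intro i _ j _ hij
    rw [Function.onFun, Finset.disjoint_left]
    intro I h1 h2
    unfold cset at h1 h2
    rw [Finset.mem_filter, Finset.mem_powersetCard] at h1 h2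
    exact hij (h1.1.2.symm.trans h2.1.2)
  have hQ : ∀ I ∈ U, ∃ Q : Multiset ℕ, Multiset.card Q = I.card ∧
      (∀ a ∈ Q, a ∈ A ∧ a ∉ I) ∧ Q.sum = ∑ a ∈ I, a := by
    intro I hI
    rw [hU, Finset.mem_biUnion] at hI
    obtain ⟨i, _, hI⟩ := hI
    unfold cset at hI
    rw [Finset.mem_filter, Finset.mem_powersetCard] at hI
    rw [hI.1.2]
    exact hI.2
  choose! Q q1 q2 q3 using hQ
  have hUsub : ∀ I ∈ U, I ⊆ H ∧ 1 ≤ I.card := by
    intro I hI
    rw [hU, Finset.mem_biUnion] at hI
    obtain ⟨i, hi, hI⟩ := hI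
    unfold cset at hI
    rw [Finset.mem_filter, Finset.mem_powersetCard] at hI
    rw [Finset.mem_Icc] at hi
    exact ⟨hI.1.1, by omega⟩
  set g : Finset ℕ → Multiset ℕ := fun I => (H \ I).val + Q I with hg
  have hginj : Set.InjOn g U := by
    intro I hI J hJ hIJ
    rw [Finset.mem_coe] at hI hJ
    have key : ∀ I ∈ U, ∀ x ∈ H, (x ∈ I ↔ x ∉ g I) := by
      intro I hI x hx
      rw [hg]
      simp only [Multiset.mem_add, Finset.mem_val, Finset.mem_sdiff]
      constructor
      · intro h1 h2
        rcases h2 with h2 | h2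
        · exact h2.2 h1
        · exact (q2 I hI x h2).2 h1
      · intro h1
        by_contra h2
        exact h1 (Or.inl ⟨hx, h2⟩)
    ext x
    constructor
    · intro hx
      have hxH := (hUsub I hI).1 hx
      rw [key J hJ x hxH, ← hIJ, ← key I hI x hxH]
      exact hx
    · intro hx
      have hxH := (hUsub J hJ).1 hx
      rw [key I hI x hxH, hIJ, ← key J hJ x hxH]
      exact hx
  have hgH : H.val ∉ U.image g := by
    intro h1
    rw [Finset.mem_image] at h1
    obtain ⟨I, hI, h2⟩ := h1
    obtain ⟨h3, h4⟩ := hUsub I hI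
    obtain ⟨x, hx⟩ := Finset.card_pos.1 (show 0 < I.card by omega)
    have h5 : x ∉ g I := by
      rw [hg]
      simp only [Multiset.mem_add, Finset.mem_val, Finset.mem_sdiff]
      rintro (h6 | h6)
      · exact h6.2 hx
      · exact (q2 I hI x h6).2 hx
    apply h5
    rw [h2]
    exact h3 hx
  have hcard : (insert H.val (U.image g)).card = U.card + 1 := by
    rw [Finset.card_insert_of_notMem hgH, Finset.card_image_of_injOn hginj]
  rw [← hUc, ← hcard]
  refine le_trans ?_ (hA (∑ a ∈ H, a))
  unfold rep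
  rw [← Set.ncard_coe_finset]
  apply Set.ncard_le_ncard _ (reps_finite A h _)
  intro u hu
  rw [Finset.mem_coe, Finset.mem_insert, Finset.mem_image] at hu
  rcases hu with rfl | ⟨I, hI, rfl⟩
  · refine ⟨hc, fun a ha => hH a ha, ?_⟩
    exact Finset.sum_val H
  · obtain ⟨h3, h4⟩ := hUsub I hI
    refine ⟨?_, ?_, ?_⟩
    · rw [hg]
      simp only [Multiset.card_add, q1 I hI]
      have h5 : Multiset.card (H \ I).val = (H \ I).card := rfl
      rw [h5, Finset.card_sdiff_of_subset h3]
      have := Finset.card_le_card h3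
      omega
    · intro a ha
      rw [hg] at ha
      simp only [Multiset.mem_add, Finset.mem_val, Finset.mem_sdiff] at ha
      rcases ha with ha | ha
      · exact hH a ha.1
      · exact (q2 I hI a ha).1
    · rw [hg]
      simp only [Multiset.sum_add, q3 I hI]
      rw [Finset.sum_val, ← Finset.sum_sdiff h3]
      simp

/-- double counting: the subsets with a coincidence in all the `h`-element subsets -/
theorem double_count (A : Set ℕ) (F : Finset ℕ) (h i : ℕ) (hi : i ≤ h) :
    ∑ H ∈ F.powersetCard h, (cset A H i).card = (cset A F i).card * (F.card - i).choose (h - i) := by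
  classical
  have h1 : ∀ H ∈ F.powersetCard h, (cset A H i).card =
      ∑ I ∈ cset A F i, if I ⊆ H then 1 else 0 := by
    intro H hH
    rw [Finset.mem_powersetCard] at hH
    rw [← Finset.card_filter]
    congr 1
    ext I
    unfold cset
    simp only [Finset.mem_filter, Finset.mem_powersetCard]
    constructor
    · rintro ⟨⟨a1, a2⟩, a3⟩
      exact ⟨⟨⟨a1.trans hH.1, a2⟩, a3⟩, a1⟩
    · rintro ⟨⟨⟨a1, a2⟩, a3⟩, a4⟩
      exact ⟨⟨a4, a2⟩, a3⟩
  rw [Finset.sum_congr rfl h1, Finset.sum_comm]
  have h2 : ∀ I ∈ cset A F i, ∑ H ∈ F.powersetCard h, (if I ⊆ H then 1 else 0) =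
      (F.card - i).choose (h - i) := by
    intro I hI
    unfold cset at hI
    rw [Finset.mem_filter, Finset.mem_powersetCard] at hI
    obtain ⟨⟨b1, b2⟩, _⟩ := hI
    rw [← Finset.card_filter]
    rw [← b2, ← Finset.card_sdiff_of_subset b1, ← Finset.card_powersetCard]
    apply Finset.card_bij' (fun H _ => H \ I) (fun K _ => K ∪ I)
    · intro H hH
      rw [Finset.mem_filter, Finset.mem_powersetCard] at hH
      rw [Finset.mem_powersetCard]
      refine ⟨Finset.sdiff_subset_sdiff hH.1.1 (Finset.Subset.refl I), ?_⟩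
      rw [Finset.card_sdiff_of_subset hH.2, hH.1.2]
    · intro K hK
      rw [Finset.mem_powersetCard] at hK
      rw [Finset.mem_filter, Finset.mem_powersetCard]
      have hd : Disjoint K I := Finset.disjoint_of_subset_left hK.1 Finset.sdiff_disjoint
      refine ⟨⟨Finset.union_subset (hK.1.trans Finset.sdiff_subset) b1, ?_⟩,
        Finset.subset_union_right⟩
      rw [Finset.card_union_of_disjoint hd, hK.2]
      omega
    · intro H hH
      rw [Finset.mem_filter, Finset.mem_powersetCard] at hH
      exact Finset.sdiff_union_of_subset hH.2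
    · intro K hK
      rw [Finset.mem_powersetCard] at hK
      have hd : Disjoint K I := Finset.disjoint_of_subset_left hK.1 Finset.sdiff_disjoint
      rw [Finset.union_sdiff_distrib, Finset.sdiff_self, Finset.union_empty]
      exact Finset.sdiff_eq_self_of_disjoint hd
  rw [Finset.sum_congr rfl h2, Finset.sum_const, smul_eq_mul]

/-- the proportions of the `i`-element subsets with a coincidence -/
theorem density {A : Set ℕ} {h C : ℕ} (hA : ∀ n, rep A h n ≤ C) (F : Finset ℕ)
    (hF : ∀ a ∈ F, a ∈ A) (hc : h ≤ F.card) :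
    (∑ i ∈ Finset.Icc 1 h, (h.choose i : ℝ) * ((coinc A F i : ℝ) / (F.card.choose i : ℝ))) + 1
      ≤ C := by
  classical
  have h1 : ∀ H ∈ F.powersetCard h, (∑ i ∈ Finset.Icc 1 h, (cset A H i).card) + 1 ≤ C := by
    intro H hH
    rw [Finset.mem_powersetCard] at hH
    exact local_bound hA H (fun a ha => hF a (hH.1 ha)) hH.2
  have h2 := Finset.sum_le_sum h1
  rw [Finset.sum_add_distrib, Finset.sum_comm, Finset.sum_const, Finset.sum_const,
    Finset.card_powersetCard, smul_eq_mul, smul_eq_mul, mul_one] at h2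
  have h3 : ∑ i ∈ Finset.Icc 1 h, ∑ H ∈ F.powersetCard h, (cset A H i).card =
      ∑ i ∈ Finset.Icc 1 h, coinc A F i * (F.card - i).choose (h - i) := by
    apply Finset.sum_congr rfl
    intro i hi
    rw [Finset.mem_Icc] at hi
    rw [double_count A F h i hi.2, coinc_eq]
  rw [h3] at h2
  have hpos : (0 : ℝ) < F.card.choose h := by exact_mod_cast Nat.choose_pos hc
  have h4 : ∀ i ∈ Finset.Icc 1 h, (h.choose i : ℝ) * ((coinc A F i : ℝ) / (F.card.choose i : ℝ)) =
      ((coinc A F i * (F.card - i).choose (h - i) : ℕ) : ℝ) / F.card.choose h := by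
    intro i hi
    rw [Finset.mem_Icc] at hi
    have h5 := Nat.choose_mul (n := F.card) hi.2
    have h6 : (0 : ℝ) < F.card.choose i := by exact_mod_cast Nat.choose_pos (hi.2.trans hc)
    have h7 : (F.card.choose h : ℝ) * h.choose i =
        F.card.choose i * (F.card - i).choose (h - i) := by exact_mod_cast h5
    push_cast
    rw [mul_div_assoc', div_eq_div_iff h6.ne' hpos.ne']
    linear_combination (coinc A F i : ℝ) * h7
  rw [Finset.sum_congr rfl h4, ← Finset.sum_div, ← Nat.cast_sum]
  have h8 : ((∑ i ∈ Finset.Icc 1 h, coinc A F i * (F.card - i).choose (h - i) : ℕ) : ℝ) +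
      F.card.choose h ≤ F.card.choose h * C := by exact_mod_cast h2
  rw [div_add_one hpos.ne', div_le_iff₀ hpos]
  linarith

end Pool.Agent.H601.T4
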