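import Pool.Agent.H601.Rep

/-!
# Disjoint coincidences and bounded representation functions of order `h`
-/

set_option autoImplicit false

namespace Pool.Agent.H601.T4

open Finset Pool.Agent.H601

/-- `IsB k A`: the sums of `k` elements of `A` are all different (up to the order) -/
def IsB (k : ℕ) (A : Set ℕ) : Prop :=
  ∀ s t : Multiset ℕ, Multiset.card s = k → Multiset.card t = k → (∀ a ∈ s, a ∈ A) →
    (∀ a ∈ t, a ∈ A) → s.sum = t.sum → s = t

/-- a family of `m` coincidences of order at most `k` with disjoint supports in `A` -/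
structure Fam (A : Set ℕ) (k m : ℕ) (s t : Fin m → Multiset ℕ) : Prop where
  ne : ∀ i, s i ≠ 0
  card_le : ∀ i, Multiset.card (s i) ≤ k
  card_eq : ∀ i, Multiset.card (t i) = Multiset.card (s i)
  sum_eq : ∀ i, (t i).sum = (s i).sum
  mem_s : ∀ i, ∀ a ∈ s i, a ∈ A
  mem_t : ∀ i, ∀ a ∈ t i, a ∈ A
  disj : ∀ i, Disjoint (s i) (t i)
  pair : ∀ i j, i ≠ j → Disjoint (s i + t i) (s j + t j)

theorem coincidence {A : Set ℕ} {k : ℕ} (hA : ¬ IsB k A) :
    ∃ s t : Multiset ℕ, s ≠ 0 ∧ Multiset.card s ≤ k ∧ Multiset.card t = Multiset.card s ∧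
      t.sum = s.sum ∧ (∀ a ∈ s, a ∈ A) ∧ (∀ a ∈ t, a ∈ A) ∧ Disjoint s t := by
  classical
  unfold IsB at hA
  push Not at hA
  obtain ⟨s, t, h1, h2, h3, h4, h5, h6⟩ := hA
  have e1 : s - t + s ∩ t = s := Multiset.sub_add_inter s t
  have e2 : t - s + s ∩ t = t := by
    rw [Multiset.inter_comm]; exact Multiset.sub_add_inter t s
  have c1 := congrArg Multiset.card e1
  have c2 := congrArg Multiset.card e2
  have s1 := congrArg Multiset.sum e1
  have s2 := congrArg Multiset.sum e2
  rw [Multiset.card_add] at c1 c2
  rw [Multiset.sum_add] at s1 s2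
  refine ⟨s - t, t - s, ?_, ?_, ?_, ?_, ?_, ?_, ?_⟩
  · intro h0
    rw [h0] at c1
    rw [Multiset.card_zero] at c1
    have h7 : t - s = 0 := by
      rw [← Multiset.card_eq_zero]; omega
    rw [h0, zero_add] at e1
    rw [h7, zero_add] at e2
    exact h6 (e1.symm.trans e2)
  · omega
  · omega
  · omega
  · intro a ha
    exact h3 a (Multiset.mem_of_le (Multiset.sub_le_self s t) ha)
  · intro a ha
    exact h4 a (Multiset.mem_of_le (Multiset.sub_le_self t s) ha)
  · rw [Multiset.disjoint_left]
    intro a ha hb
    rw [← Multiset.count_pos, Multiset.count_sub] at ha hb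
    omega

/-- either `A` is a `B_k`-set after removal of at most `2 k m` elements, or there are `m + 1`
disjoint coincidences -/
theorem greedy (A : Set ℕ) (k : ℕ) : ∀ m : ℕ,
    (∃ F : Finset ℕ, F.card ≤ 2 * k * m ∧ IsB k (A \ F)) ∨
    ∃ s t : Fin (m + 1) → Multiset ℕ, Fam A k (m + 1) s t := by
  classical
  intro m
  by_contra hcon
  push Not at hcon
  obtain ⟨hF, hnone⟩ := hcon
  have key : ∀ n : ℕ, n ≤ m + 1 → ∃ s t : Fin n → Multiset ℕ, Fam A k n s t := by
    intro n
    induction n with
    | zero =>
      intro _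
      exact ⟨fun _ => 0, fun _ => 0, ⟨fun i => i.elim0, fun i => i.elim0, fun i => i.elim0,
        fun i => i.elim0, fun i => i.elim0, fun i => i.elim0, fun i => i.elim0, fun i => i.elim0⟩⟩
    | succ n ih =>
      intro hn
      obtain ⟨s, t, hst⟩ := ih (by omega)
      set F : Finset ℕ := Finset.univ.biUnion (fun i : Fin n => (s i + t i).toFinset) with hFdef
      have hFc : F.card ≤ 2 * k * m := by
        rw [hFdef]
        refine Finset.card_biUnion_le.trans ?_
        have h1 : ∀ i ∈ (Finset.univ : Finset (Fin n)), (s i + t i).toFinset.card ≤ 2 * k := by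
          intro i _
          refine (Multiset.toFinset_card_le _).trans ?_
          rw [Multiset.card_add]
          have := hst.card_le i
          have := hst.card_eq i
          omega
        refine (Finset.sum_le_card_nsmul _ _ _ h1).trans ?_
        rw [Finset.card_univ, Fintype.card_fin, smul_eq_mul]
        have : n ≤ m := by omega
        nlinarith
      obtain ⟨s', t', g1, g2, g3, g4, g5, g6, g7⟩ := coincidence (hF F hFc)
      have hdis : ∀ i : Fin n, Disjoint (s i + t i) (s' + t') := by
        intro i
        rw [Multiset.disjoint_left]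
        intro a ha hb
        have hc : a ∈ A \ (F : Set ℕ) := by
          rw [Multiset.mem_add] at hb
          rcases hb with hb | hb
          · exact g5 a hb
          · exact g6 a hb
        apply hc.2
        rw [hFdef, Finset.mem_coe, Finset.mem_biUnion]
        exact ⟨i, Finset.mem_univ _, by rwa [Multiset.mem_toFinset]⟩
      refine ⟨Fin.snoc s s', Fin.snoc t t', ⟨?_, ?_, ?_, ?_, ?_, ?_, ?_, ?_⟩⟩
      · intro i
        refine Fin.lastCases ?_ (fun i => ?_) i
        · rw [Fin.snoc_last]; exact g1
        · rw [Fin.snoc_castSucc]; exact hst.ne i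
      · intro i
        refine Fin.lastCases ?_ (fun i => ?_) i
        · rw [Fin.snoc_last]; exact g2
        · rw [Fin.snoc_castSucc]; exact hst.card_le i
      · intro i
        refine Fin.lastCases ?_ (fun i => ?_) i
        · rw [Fin.snoc_last, Fin.snoc_last]; exact g3
        · rw [Fin.snoc_castSucc, Fin.snoc_castSucc]; exact hst.card_eq i
      · intro i
        refine Fin.lastCases ?_ (fun i => ?_) i
        · rw [Fin.snoc_last, Fin.snoc_last]; exact g4
        · rw [Fin.snoc_castSucc, Fin.snoc_castSucc]; exact hst.sum_eq i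
      · intro i
        refine Fin.lastCases ?_ (fun i => ?_) i
        · rw [Fin.snoc_last]; exact fun a ha => (g5 a ha).1
        · rw [Fin.snoc_castSucc]; exact hst.mem_s i
      · intro i
        refine Fin.lastCases ?_ (fun i => ?_) i
        · rw [Fin.snoc_last]; exact fun a ha => (g6 a ha).1
        · rw [Fin.snoc_castSucc]; exact hst.mem_t i
      · intro i
        refine Fin.lastCases ?_ (fun i => ?_) i
        · rw [Fin.snoc_last, Fin.snoc_last]; exact g7
        · rw [Fin.snoc_castSucc, Fin.snoc_castSucc]; exact hst.disj i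
      · intro i j
        refine Fin.lastCases ?_ (fun i => ?_) i
        · refine Fin.lastCases ?_ (fun j => ?_) j
          · intro h; exact absurd rfl h
          · intro _
            rw [Fin.snoc_last, Fin.snoc_last, Fin.snoc_castSucc, Fin.snoc_castSucc]
            exact (hdis j).symm
        · refine Fin.lastCases ?_ (fun j => ?_) j
          · intro _
            rw [Fin.snoc_last, Fin.snoc_last, Fin.snoc_castSucc, Fin.snoc_castSucc]
            exact hdis i
          · intro h
            rw [Fin.snoc_castSucc, Fin.snoc_castSucc, Fin.snoc_castSucc, Fin.snoc_castSucc]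
            exact hst.pair i j (fun h' => h (by rw [h']))
  obtain ⟨s, t, hst⟩ := key (m + 1) le_rfl
  exact hnone s t hst

/-- `m` disjoint coincidences give `2 ^ m` representations -/
theorem many_reps {A : Set ℕ} {k m h : ℕ} {s t : Fin m → Multiset ℕ} (hst : Fam A k m s t)
    (hkm : k * m ≤ h) {a : ℕ} (ha : a ∈ A) :
    2 ^ m ≤ rep A h (∑ i, (s i).sum + (h - ∑ i, Multiset.card (s i)) * a) := by
  classical
  set M : Finset (Fin m) → Multiset ℕ := fun E =>
    (∑ i, if i ∈ E then s i else t i) +
      Multiset.replicate (h - ∑ i, Multiset.card (s i)) a with hM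
  have hcard : ∑ i, Multiset.card (s i) ≤ h := by
    refine (Finset.sum_le_card_nsmul _ _ _ (fun i _ => hst.card_le i)).trans ?_
    rw [Finset.card_univ, Fintype.card_fin, smul_eq_mul, Nat.mul_comm]
    exact hkm
  have hinj : Function.Injective M := by
    intro E E' hE
    rw [hM] at hE
    simp only at hE
    have h1 := add_right_cancel hE
    by_contra hne
    have h2 : ∃ i, ¬ (i ∈ E ↔ i ∈ E') := by
      by_contra h3
      push Not at h3
      exact hne (Finset.ext h3)
    obtain ⟨i, hi⟩ := h2
    -- pick an element of s i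
    obtain ⟨x, hx⟩ := Multiset.exists_mem_of_ne_zero (hst.ne i)
    have hcount : ∀ E : Finset (Fin m),
        Multiset.count x (∑ j, if j ∈ E then s j else t j) =
          if i ∈ E then Multiset.count x (s i) else 0 := by
      intro E
      rw [Multiset.count_sum']
      rw [Finset.sum_eq_single i]
      · split_ifs
        · rfl
        · rw [Multiset.count_eq_zero]
          exact Multiset.disjoint_left.1 (hst.disj i) hx
      · intro j _ hj
        rw [Multiset.count_eq_zero]
        intro hx'
        have h4 := Multiset.disjoint_left.1 (hst.pair i j (fun h => hj h.symm))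
          (Multiset.mem_add.2 (Or.inl hx))
        apply h4
        rw [Multiset.mem_add]
        split_ifs at hx'
        · exact Or.inl hx'
        · exact Or.inr hx'
      · intro h; exact absurd (Finset.mem_univ _) h
    have h5 := congrArg (Multiset.count x) h1
    rw [hcount, hcount] at h5
    have h6 : 0 < Multiset.count x (s i) := Multiset.count_pos.2 hx
    by_cases h7 : i ∈ E
    · by_cases h8 : i ∈ E'
      · exact hi (by tauto)
      · rw [if_pos h7, if_neg h8] at h5; omega
    · by_cases h8 : i ∈ E'
      · rw [if_neg h7, if_pos h8] at h5; omega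
      · exact hi (by tauto)
  have h2 : (Finset.univ.image M).card = 2 ^ m := by
    rw [Finset.card_image_of_injective _ hinj, Finset.card_univ, Fintype.card_finset,
      Fintype.card_fin]
  rw [← h2]
  unfold rep
  rw [← Set.ncard_coe_finset]
  apply Set.ncard_le_ncard _ (reps_finite A h _)
  intro u hu
  rw [mem_coe, mem_image] at hu
  obtain ⟨E, _, rfl⟩ := hu
  refine ⟨?_, ?_, ?_⟩
  · rw [hM]
    simp only [Multiset.card_add, Multiset.card_replicate]
    have h3 : Multiset.card (∑ i, if i ∈ E then s i else t i) = ∑ i, Multiset.card (s i) := by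
      rw [Multiset.card_sum]
      apply Finset.sum_congr rfl
      intro i _
      split_ifs
      · rfl
      · exact hst.card_eq i
    rw [h3]
    omega
  · intro x hx
    rw [hM] at hx
    simp only [Multiset.mem_add] at hx
    rcases hx with hx | hx
    · rw [Multiset.mem_sum] at hx
      obtain ⟨i, _, hx⟩ := hx
      split_ifs at hx
      · exact hst.mem_s i x hx
      · exact hst.mem_t i x hx
    · rw [Multiset.eq_of_mem_replicate hx]; exact ha
  · rw [hM]
    simp only [Multiset.sum_add, Multiset.sum_replicate, smul_eq_mul]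
    congr 1
    rw [Multiset.sum_sum]
    apply Finset.sum_congr rfl
    intro i _
    split_ifs
    · rfl
    · exact hst.sum_eq i

/-- if `r_{A,h} < 2 ^ (m + 1)` everywhere and `k (m + 1) ≤ h`, then `A` is a `B_k`-set up to
at most `2 k m` elements -/
theorem almost_B {A : Set ℕ} {k m h : ℕ} (hkm : k * (m + 1) ≤ h)
    (hA : ∀ n, rep A h n < 2 ^ (m + 1)) :
    ∃ F : Finset ℕ, F.card ≤ 2 * k * m ∧ IsB k (A \ F) := by
  rcases greedy A k m with h1 | ⟨s, t, hst⟩
  · exact h1
  · exfalso
    obtain ⟨x, hx⟩ := Multiset.exists_mem_of_ne_zero (hst.ne 0)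
    have h1 := many_reps hst hkm (hst.mem_s 0 x hx)
    exact absurd h1 (not_le.2 (hA _))

/-- the same when only the large integers have few representations -/
theorem almost_B_eventually {A : Set ℕ} {k m h n₀ : ℕ} (hkm : k * (m + 1) ≤ h)
    (hA : ∀ n, n₀ ≤ n → rep A h n < 2 ^ (m + 1)) :
    ∃ F : Finset ℕ, IsB k (A \ F) := by
  classical
  rcases greedy (A \ (Finset.range (n₀ + 1) : Finset ℕ)) k m with ⟨F, _, h1⟩ | ⟨s, t, hst⟩
  · refine ⟨Finset.range (n₀ + 1) ∪ F, ?_⟩
    rw [Finset.coe_union, ← Set.sdiff_sdiff]
    exact h1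
  · exfalso
    obtain ⟨x, hx⟩ := Multiset.exists_mem_of_ne_zero (hst.ne 0)
    have hxA := hst.mem_s 0 x hx
    have h1 := many_reps hst hkm hxA
    have h2 := rep_mono (A := A \ (Finset.range (n₀ + 1) : Finset ℕ)) (B := A)
      Set.sdiff_subset h (∑ i, (s i).sum + (h - ∑ i, Multiset.card (s i)) * x)
    have h3 : n₀ < x := by
      have := hxA.2
      rw [Finset.mem_coe, Finset.mem_range] at this
      omega
    have h4 : x ≤ ∑ i, (s i).sum :=
      (Multiset.le_sum_of_mem hx).trans
        (Finset.single_le_sum (f := fun i => (s i).sum) (fun i _ => Nat.zero_le _)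
          (Finset.mem_univ (0 : Fin (m + 1))))
    have h5 := hA (∑ i, (s i).sum + (h - ∑ i, Multiset.card (s i)) * x) (by
      have : x ≤ ∑ i, (s i).sum + (h - ∑ i, Multiset.card (s i)) * x := h4.trans (Nat.le_add_right _ _)
      omega)
    omega

end Pool.Agent.H601.T4
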