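import Pool.Agent.H601.T4.Greedy

/-!
# The sumset `k A` of a counterexample of order `j k` is a counterexample of order `j`
-/

set_option autoImplicit false

namespace Pool.Agent.H601.T4

open Finset Pool.Agent.H601

/-- the set of the sums of `k` elements of `A` -/
def sums (k : ℕ) (A : Set ℕ) : Set ℕ :=
  {x | ∃ s : Multiset ℕ, Multiset.card s = k ∧ (∀ a ∈ s, a ∈ A) ∧ s.sum = x}

theorem split {A : Set ℕ} {k : ℕ} : ∀ (j : ℕ) (l : List ℕ), l.length = j * k → (∀ a ∈ l, a ∈ A) →
    ∃ b : Multiset ℕ, Multiset.card b = j ∧ (∀ x ∈ b, x ∈ sums k A) ∧ b.sum = l.sum := by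
  intro j
  induction j with
  | zero =>
    intro l hl _
    have : l = [] := List.length_eq_zero_iff.1 (by omega)
    subst this
    exact ⟨0, rfl, by simp, by simp⟩
  | succ j ih =>
    intro l hl hA
    have hlen : k ≤ l.length := by rw [hl]; nlinarith
    obtain ⟨b, h1, h2, h3⟩ := ih (l.drop k) (by rw [List.length_drop, hl]; rw [add_mul]; omega)
      (fun a ha => hA a (List.mem_of_mem_drop ha))
    refine ⟨(l.take k).sum ::ₘ b, ?_, ?_, ?_⟩
    · rw [Multiset.card_cons, h1]
    · intro x hx
      rw [Multiset.mem_cons] at hx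
      rcases hx with rfl | hx
      · refine ⟨((l.take k : List ℕ) : Multiset ℕ), ?_, ?_, ?_⟩
        · rw [Multiset.coe_card, List.length_take]; omega
        · intro a ha
          exact hA a (List.mem_of_mem_take (by simpa using ha))
        · rw [Multiset.sum_coe]
      · exact h2 x hx
    · rw [Multiset.sum_cons, h3, ← List.sum_append, List.take_append_drop]

theorem basis_sums {A : Set ℕ} {j k n : ℕ} (h : 1 ≤ rep A (j * k) n) :
    1 ≤ rep (sums k A) j n := by
  unfold rep at h ⊢
  have h1 : 0 < {s : Multiset ℕ | Multiset.card s = j * k ∧ (∀ a ∈ s, a ∈ A) ∧ s.sum = n}.ncard := by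
    omega
  rw [Set.ncard_pos (reps_finite A (j * k) n)] at h1
  obtain ⟨s, h2, h3, h4⟩ := h1
  obtain ⟨b, h5, h6, h7⟩ := split j s.toList (by rw [Multiset.length_toList]; exact h2)
    (fun a ha => h3 a (by rwa [Multiset.mem_toList] at ha))
  have h8 : 0 < {s : Multiset ℕ | Multiset.card s = j ∧ (∀ a ∈ s, a ∈ sums k A) ∧
      s.sum = n}.ncard := by
    rw [Set.ncard_pos (reps_finite (sums k A) j n)]
    refine ⟨b, h5, h6, ?_⟩
    rw [h7, ← h4]
    conv_rhs => rw [← Multiset.coe_toList s]
    rw [Multiset.sum_coe]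
  omega

theorem rep_sums {A : Set ℕ} {j k n : ℕ} :
    rep (sums k A) j n ≤ (2 ^ (j * k)) ^ j * rep A (j * k) n := by
  classical
  have hσ : ∀ x ∈ sums k A, ∃ s : Multiset ℕ, Multiset.card s = k ∧ (∀ a ∈ s, a ∈ A) ∧
      s.sum = x := fun x hx => hx
  choose! σ s1 s2 s3 using hσ
  have hf1 := reps_finite (sums k A) j n
  have hf2 := reps_finite A (j * k) n
  set T : Multiset ℕ → Multiset ℕ := fun b => b.bind σ with hT
  unfold rep
  rw [Set.ncard_eq_toFinset_card _ hf1, Set.ncard_eq_toFinset_card _ hf2]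
  apply Finset.card_le_mul_card_image_of_maps_to (f := T)
  · intro b hb
    rw [Set.Finite.mem_toFinset] at hb ⊢
    obtain ⟨b1, b2, b3⟩ := hb
    refine ⟨?_, ?_, ?_⟩
    · rw [hT]
      simp only
      rw [Multiset.card_bind]
      rw [Multiset.map_congr rfl (f := Multiset.card ∘ σ) (g := fun _ => k)
        (fun x hx => s1 x (b2 x hx))]
      simp [b1]
    · intro a ha
      rw [hT] at ha
      simp only at ha
      rw [Multiset.mem_bind] at ha
      obtain ⟨x, hx, ha⟩ := ha
      exact s2 x (b2 x hx) a ha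
    · rw [hT]
      simp only
      rw [Multiset.sum_bind]
      rw [Multiset.map_congr rfl (g := fun x => x) (fun x hx => s3 x (b2 x hx))]
      rw [Multiset.map_id', b3]
  · intro t ht
    rw [Set.Finite.mem_toFinset] at ht
    obtain ⟨t1, _, _⟩ := ht
    set F : Finset ℕ := (t.powerset.map Multiset.sum).toFinset with hF
    have hFc : F.card ≤ 2 ^ (j * k) := by
      rw [hF]
      refine (Multiset.toFinset_card_le _).trans ?_
      rw [Multiset.card_map, Multiset.card_powerset, t1]
    have hsub : (((hf1.toFinset.filter (fun b => T b = t)) : Finset (Multiset ℕ)) : Set (Multiset ℕ)) ⊆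
        {s : Multiset ℕ | Multiset.card s = j ∧ ∀ a ∈ s, a ∈ F} := by
      intro b hb
      rw [Finset.mem_coe, Finset.mem_filter, Set.Finite.mem_toFinset] at hb
      obtain ⟨⟨b1, b2, b3⟩, b4⟩ := hb
      refine ⟨b1, fun x hx => ?_⟩
      rw [hF, Multiset.mem_toFinset, Multiset.mem_map]
      refine ⟨σ x, ?_, s3 x (b2 x hx)⟩
      rw [Multiset.mem_powerset, ← b4, hT]
      exact Multiset.le_bind b hx
    have h1 := Set.ncard_le_ncard hsub (msets_finite F j).1
    rw [Set.ncard_coe_finset] at h1
    refine h1.trans ((msets_finite F j).2.trans (Nat.pow_le_pow_left hFc j))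

end Pool.Agent.H601.T4
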