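import Pool.Agent.H601.T4.Greedy

/-!
# A set with `r_{A,h} ≤ 2 ^ ⌊h/k⌋` which is not a `B_k`-set up to finitely many elements

`A` consists of the numbers `D ^ i`, `B D ^ i`, `(k B - k + 1) D ^ i` with `D = B ^ 2`,
`B = (k + 1) h + 1`.
-/

set_option autoImplicit false

namespace Pool.Agent.H601.T4

open Finset Pool.Agent.H601

section
variable (h k : ℕ)

/-- the base -/
def bB : ℕ := (k + 1) * h + 1

/-- the coefficients -/
def ec : Fin 3 → ℕ := ![1, bB h k, k * bB h k - k + 1]

/-- the elements of the set -/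
def w (p : ℕ × Fin 3) : ℕ := ec h k p.2 * (bB h k ^ 2) ^ p.1

/-- the set -/
def setA : Set ℕ := Set.range (w h k)

end

theorem digits_zero {D : ℤ} (hD : 0 < D) : ∀ (M : ℕ) (c : ℕ → ℤ), (∀ j, |c j| < D) →
    ∑ j ∈ range M, c j * D ^ j = 0 → ∀ j < M, c j = 0 := by
  intro M
  induction M with
  | zero => intro c _ _ j hj; omega
  | succ M ih =>
    intro c hc hs j hj
    rw [Finset.sum_range_succ'] at hs
    have h1 : ∑ k ∈ range M, c (k + 1) * D ^ (k + 1) = D * ∑ k ∈ range M, c (k + 1) * D ^ k := by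
      rw [Finset.mul_sum]
      apply Finset.sum_congr rfl
      intro k _
      ring
    rw [h1, pow_zero, mul_one] at hs
    have h2 : c 0 = 0 := by
      apply Int.eq_zero_of_abs_lt_dvd (m := D) _ (hc 0)
      exact ⟨-∑ k ∈ range M, c (k + 1) * D ^ k, by linarith⟩
    rw [h2, add_zero] at hs
    have h3 : ∑ k ∈ range M, c (k + 1) * D ^ k = 0 := by
      rcases mul_eq_zero.1 hs with h4 | h4
      · omega
      · exact h4
    rcases j with _ | j
    · exact h2
    · exact ih (fun j => c (j + 1)) (fun j => hc (j + 1)) h3 j (by omega)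

section
variable {h k : ℕ} (hk : 2 ≤ k) (hkh : k ≤ h)
include hk hkh

theorem bB_gt : k < bB h k ∧ (k + 1) * h < bB h k := by
  unfold bB
  constructor
  · nlinarith
  · omega

theorem ec_bounds (c : Fin 3) : 1 ≤ ec h k c ∧ ec h k c < bB h k ^ 2 := by
  obtain ⟨h1, h2⟩ := bB_gt hk hkh
  have h3 : k ≤ k * bB h k := Nat.le_mul_of_pos_right k (by omega)
  have h4 : k * bB h k + 1 ≤ bB h k ^ 2 := by nlinarith
  fin_cases c
  · show 1 ≤ 1 ∧ 1 < bB h k ^ 2
    constructor
    · exact le_rfl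
    · nlinarith
  · show 1 ≤ bB h k ∧ bB h k < bB h k ^ 2
    constructor
    · omega
    · nlinarith
  · show 1 ≤ k * bB h k - k + 1 ∧ k * bB h k - k + 1 < bB h k ^ 2
    constructor
    · omega
    · omega

theorem ec_inj : Function.Injective (ec h k) := by
  obtain ⟨h1, h2⟩ := bB_gt hk hkh
  have h3 : bB h k + k ≤ k * bB h k := by
    have : k + bB h k ≤ k * bB h k := by nlinarith
    omega
  intro c c'
  fin_cases c <;> fin_cases c' <;> intro h4
  · rfl
  · have h5 : 1 = bB h k := h4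
    omega
  · have h5 : 1 = k * bB h k - k + 1 := h4
    omega
  · have h5 : bB h k = 1 := h4
    omega
  · rfl
  · have h5 : bB h k = k * bB h k - k + 1 := h4
    omega
  · have h5 : k * bB h k - k + 1 = 1 := h4
    omega
  · have h5 : k * bB h k - k + 1 = bB h k := h4
    omega
  · rfl

theorem w_inj : Function.Injective (w h k) := by
  have hD : 1 < bB h k ^ 2 := by
    have := (ec_bounds hk hkh 0)
    have h1 : ec h k 0 = 1 := rfl
    omega
  have key : ∀ p q : ℕ × Fin 3, p.1 < q.1 → w h k p < w h k q := by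
    intro p q hpq
    unfold w
    have h1 := (ec_bounds hk hkh p.2).2
    have h2 := (ec_bounds hk hkh q.2).1
    calc ec h k p.2 * (bB h k ^ 2) ^ p.1 < (bB h k ^ 2) * (bB h k ^ 2) ^ p.1 :=
          Nat.mul_lt_mul_of_pos_right h1 (pow_pos (by omega) _)
      _ = (bB h k ^ 2) ^ (p.1 + 1) := by rw [pow_succ]; ring
      _ ≤ (bB h k ^ 2) ^ q.1 := Nat.pow_le_pow_right (by omega) hpq
      _ ≤ ec h k q.2 * (bB h k ^ 2) ^ q.1 := Nat.le_mul_of_pos_left _ h2
  intro p q hpq
  have h1 : p.1 = q.1 := by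
    rcases lt_trichotomy p.1 q.1 with h | h | h
    · exact absurd hpq (key p q h).ne
    · exact h
    · exact absurd hpq (key q p h).ne'
  have h2 : p.2 = q.2 := by
    apply ec_inj hk hkh
    unfold w at hpq
    rw [h1] at hpq
    exact Nat.eq_of_mul_eq_mul_right (pow_pos (by omega) _) hpq
  exact Prod.ext h1 h2

theorem le_w (p : ℕ × Fin 3) : p.1 < w h k p := by
  have h1 := (ec_bounds hk hkh p.2).1
  have hD : 2 ≤ bB h k ^ 2 := by
    have := (ec_bounds hk hkh 0)
    have h1 : ec h k 0 = 1 := rfl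
    omega
  unfold w
  calc p.1 < 2 ^ p.1 := Nat.lt_two_pow_self
    _ ≤ (bB h k ^ 2) ^ p.1 := Nat.pow_le_pow_left hD _
    _ ≤ ec h k p.2 * (bB h k ^ 2) ^ p.1 := Nat.le_mul_of_pos_left _ h1

omit hk hkh in
/-- sums over a multiset of elements of the set -/
theorem sum_w {s : Multiset ℕ} {n : ℕ} (hk : 2 ≤ k) (hkh : k ≤ h)
    (hs : ∀ a ∈ s, a ∈ setA h k) (hn : s.sum = n) :
    (∀ a, a ∈ s → a ∈ ((range (n + 1) ×ˢ (Finset.univ : Finset (Fin 3))).image (w h k))) ∧
    (∀ g : ℕ → ℕ, ∑ a ∈ ((range (n + 1) ×ˢ (Finset.univ : Finset (Fin 3))).image (w h k)),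
      s.count a * g a = ∑ i ∈ range (n + 1), ∑ c : Fin 3, s.count (w h k (i, c)) * g (w h k (i, c))) := by
  constructor
  · intro a ha
    obtain ⟨p, hp⟩ := hs a ha
    rw [Finset.mem_image]
    refine ⟨p, ?_, hp⟩
    rw [Finset.mem_product, Finset.mem_range]
    refine ⟨?_, Finset.mem_univ _⟩
    have h1 := le_w hk hkh p
    rw [hp] at h1
    have h2 := Multiset.le_sum_of_mem ha
    omega
  · intro g
    rw [Finset.sum_image (fun p _ q _ hpq => w_inj hk hkh hpq), Finset.sum_product]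

omit hk hkh in
theorem sum_card {s : Multiset ℕ} {n : ℕ} (hk : 2 ≤ k) (hkh : k ≤ h)
    (hs : ∀ a ∈ s, a ∈ setA h k) (hn : s.sum = n) :
    (n = ∑ i ∈ range (n + 1), (s.count (w h k (i, 0)) + s.count (w h k (i, 1)) * bB h k +
      s.count (w h k (i, 2)) * (k * bB h k - k + 1)) * (bB h k ^ 2) ^ i) ∧
    (Multiset.card s = ∑ i ∈ range (n + 1), (s.count (w h k (i, 0)) + s.count (w h k (i, 1)) +
      s.count (w h k (i, 2)))) := by
  obtain ⟨h1, h2⟩ := sum_w hk hkh hs hn
  have h3 : s.toFinset ⊆ ((range (n + 1) ×ˢ (Finset.univ : Finset (Fin 3))).image (w h k)) := by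
    intro a ha
    rw [Multiset.mem_toFinset] at ha
    exact h1 a ha
  constructor
  · have h4 := h2 (fun a => a)
    have h5 : s.sum = ∑ a ∈ ((range (n + 1) ×ˢ (Finset.univ : Finset (Fin 3))).image (w h k)),
        s.count a * a := by
      rw [Finset.sum_multiset_count s]
      simp only [smul_eq_mul]
      apply Finset.sum_subset h3
      intro a _ ha
      rw [Multiset.mem_toFinset, ← Multiset.count_eq_zero] at ha
      rw [ha, zero_mul]
    refine hn.symm.trans (h5.trans (h4.trans ?_))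
    apply Finset.sum_congr rfl
    intro i _
    rw [Fin.sum_univ_three]
    show s.count (w h k (i, 0)) * (1 * (bB h k ^ 2) ^ i) +
      s.count (w h k (i, 1)) * (bB h k * (bB h k ^ 2) ^ i) +
      s.count (w h k (i, 2)) * ((k * bB h k - k + 1) * (bB h k ^ 2) ^ i) = _
    ring
  · have h4 := h2 (fun _ => 1)
    have h5 : Multiset.card s =
        ∑ a ∈ ((range (n + 1) ×ˢ (Finset.univ : Finset (Fin 3))).image (w h k)), s.count a * 1 := by
      rw [← Multiset.toFinset_sum_count_eq s]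
      simp only [mul_one]
      apply Finset.sum_subset h3
      intro a _ ha
      rwa [Multiset.mem_toFinset, ← Multiset.count_eq_zero] at ha
    rw [h5, h4]
    apply Finset.sum_congr rfl
    intro i _
    rw [Fin.sum_univ_three]
    ring

omit hk hkh in
/-- the two invariants -/
theorem invariants {s t : Multiset ℕ} {n : ℕ} (hk : 2 ≤ k) (hkh : k ≤ h)
    (hs : ∀ a ∈ s, a ∈ setA h k) (hn : s.sum = n) (hc : Multiset.card s = h)
    (ht : ∀ a ∈ t, a ∈ setA h k) (htn : t.sum = n) (htc : Multiset.card t = h) :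
    ∀ i < n + 1,
      (s.count (w h k (i, 1)) + k * s.count (w h k (i, 2)) =
        t.count (w h k (i, 1)) + k * t.count (w h k (i, 2))) ∧
      (s.count (w h k (i, 0)) + (k - 1) * t.count (w h k (i, 2)) =
        t.count (w h k (i, 0)) + (k - 1) * s.count (w h k (i, 2))) := by
  obtain ⟨h1, _⟩ := sum_card hk hkh hs hn
  obtain ⟨h2, _⟩ := sum_card hk hkh ht htn
  obtain ⟨b1, b2⟩ := bB_gt hk hkh
  set B := bB h k with hB
  have hkB : k ≤ k * B := Nat.le_mul_of_pos_right k (by omega)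
  set q : ℕ → ℤ := fun i => ((s.count (w h k (i, 0)) : ℤ) - t.count (w h k (i, 0))) -
    ((k : ℤ) - 1) * ((s.count (w h k (i, 2)) : ℤ) - t.count (w h k (i, 2))) with hq
  set p : ℕ → ℤ := fun i => ((s.count (w h k (i, 1)) : ℤ) - t.count (w h k (i, 1))) +
    (k : ℤ) * ((s.count (w h k (i, 2)) : ℤ) - t.count (w h k (i, 2))) with hp
  have hle : ∀ (u : Multiset ℕ), Multiset.card u = h → ∀ a, (u.count a : ℤ) ≤ h := by
    intro u hu a
    have := Multiset.count_le_card a u
    omega
  have hqb : ∀ i, |q i| ≤ (B : ℤ) - 1 := by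
    intro i
    have c1 := hle s hc (w h k (i, 0))
    have c2 := hle t htc (w h k (i, 0))
    have c3 := hle s hc (w h k (i, 2))
    have c4 := hle t htc (w h k (i, 2))
    have c5 : (0 : ℤ) ≤ s.count (w h k (i, 0)) := by positivity
    have c6 : (0 : ℤ) ≤ t.count (w h k (i, 0)) := by positivity
    have c7 : (0 : ℤ) ≤ s.count (w h k (i, 2)) := by positivity
    have c8 : (0 : ℤ) ≤ t.count (w h k (i, 2)) := by positivity
    have c9 : ((k : ℤ) + 1) * h ≤ (B : ℤ) - 1 := by
      have : (k + 1) * h + 1 ≤ B := b2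
      zify at this
      linarith
    have hk' : (2 : ℤ) ≤ k := by exact_mod_cast hk
    rw [abs_le]
    rw [hq]
    simp only
    constructor
    · nlinarith [mul_nonneg (by linarith : (0:ℤ) ≤ (k:ℤ) - 1) (by linarith : (0:ℤ) ≤ (h:ℤ) - s.count (w h k (i, 2))), mul_nonneg (by linarith : (0:ℤ) ≤ (k:ℤ) - 1) c8]
    · nlinarith [mul_nonneg (by linarith : (0:ℤ) ≤ (k:ℤ) - 1) (by linarith : (0:ℤ) ≤ (h:ℤ) - t.count (w h k (i, 2))), mul_nonneg (by linarith : (0:ℤ) ≤ (k:ℤ) - 1) c7]
  have hpb : ∀ i, |p i| ≤ (B : ℤ) - 1 := by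
    intro i
    have c1 := hle s hc (w h k (i, 1))
    have c2 := hle t htc (w h k (i, 1))
    have c3 := hle s hc (w h k (i, 2))
    have c4 := hle t htc (w h k (i, 2))
    have c5 : (0 : ℤ) ≤ s.count (w h k (i, 1)) := by positivity
    have c6 : (0 : ℤ) ≤ t.count (w h k (i, 1)) := by positivity
    have c7 : (0 : ℤ) ≤ s.count (w h k (i, 2)) := by positivity
    have c8 : (0 : ℤ) ≤ t.count (w h k (i, 2)) := by positivity
    have c9 : ((k : ℤ) + 1) * h ≤ (B : ℤ) - 1 := by
      have : (k + 1) * h + 1 ≤ B := b2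
      zify at this
      linarith
    have hk' : (2 : ℤ) ≤ k := by exact_mod_cast hk
    rw [abs_le]
    rw [hp]
    simp only
    constructor
    · nlinarith [mul_nonneg (by linarith : (0:ℤ) ≤ (k:ℤ)) (by linarith : (0:ℤ) ≤ (h:ℤ) - t.count (w h k (i, 2))), mul_nonneg (by linarith : (0:ℤ) ≤ (k:ℤ)) c7]
    · nlinarith [mul_nonneg (by linarith : (0:ℤ) ≤ (k:ℤ)) (by linarith : (0:ℤ) ≤ (h:ℤ) - s.count (w h k (i, 2))), mul_nonneg (by linarith : (0:ℤ) ≤ (k:ℤ)) c8]
  have hB1 : (1 : ℤ) ≤ B := by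
    have : 1 ≤ B := by omega
    exact_mod_cast this
  have hsum : ∑ i ∈ range (n + 1), (q i + B * p i) * ((B : ℤ) ^ 2) ^ i = 0 := by
    have e1 : (n : ℤ) = ∑ i ∈ range (n + 1), ((s.count (w h k (i, 0)) : ℤ) +
        s.count (w h k (i, 1)) * B + s.count (w h k (i, 2)) * (k * B - k + 1)) *
          ((B : ℤ) ^ 2) ^ i := by
      conv_lhs => rw [h1]
      push_cast [Nat.cast_sub hkB]
      rfl
    have e2 : (n : ℤ) = ∑ i ∈ range (n + 1), ((t.count (w h k (i, 0)) : ℤ) +
        t.count (w h k (i, 1)) * B + t.count (w h k (i, 2)) * (k * B - k + 1)) *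
          ((B : ℤ) ^ 2) ^ i := by
      conv_lhs => rw [h2]
      push_cast [Nat.cast_sub hkB]
      rfl
    have e3 := e1.symm.trans e2
    rw [← sub_eq_zero, ← Finset.sum_sub_distrib] at e3
    rw [← e3]
    apply Finset.sum_congr rfl
    intro i _
    rw [hq, hp]
    simp only
    ring
  have hzero := digits_zero (D := (B : ℤ) ^ 2) (by positivity) (n + 1)
    (fun i => q i + B * p i) (by
      intro i
      rw [abs_lt]
      have d1 := abs_le.1 (hqb i)
      have d2 := abs_le.1 (hpb i)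
      constructor
      · nlinarith
      · nlinarith) hsum
  intro i hi
  have h3 := hzero i hi
  have h4 : q i = 0 := by
    apply Int.eq_zero_of_abs_lt_dvd (m := (B : ℤ))
    · exact ⟨-p i, by linarith⟩
    · have := hqb i
      omega
  have h5 : p i = 0 := by
    rw [h4, zero_add] at h3
    rcases mul_eq_zero.1 h3 with h6 | h6
    · omega
    · exact h6
  rw [hq] at h4
  rw [hp] at h5
  simp only at h4 h5
  constructor
  · zify
    linarith
  · zify [show 1 ≤ k by omega]
    linarith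

omit hk hkh in
/-- the set has few representations -/
theorem rep_setA (hk : 2 ≤ k) (hkh : k ≤ h) (n : ℕ) : rep (setA h k) h n ≤ 2 ^ (h / k) := by
  classical
  unfold rep
  have hfin := reps_finite (setA h k) h n
  rcases Set.eq_empty_or_nonempty
    {s : Multiset ℕ | Multiset.card s = h ∧ (∀ a ∈ s, a ∈ setA h k) ∧ s.sum = n} with he | ⟨s₀, hs₀⟩
  · rw [he, Set.ncard_empty]; exact Nat.zero_le _
  obtain ⟨a1, a2, a3⟩ := hs₀
  -- invariants
  set P : ℕ → ℕ := fun i => s₀.count (w h k (i, 1)) + k * s₀.count (w h k (i, 2)) with hP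
  set Q : ℕ → ℤ := fun i => (s₀.count (w h k (i, 0)) : ℤ) - (k - 1) * s₀.count (w h k (i, 2))
    with hQ
  set L : ℕ → ℕ := fun i => ((-(Q i)).toNat + (k - 2)) / (k - 1) with hL
  set U : ℕ → ℕ := fun i => P i / k with hU
  have hinv : ∀ s ∈ {s : Multiset ℕ | Multiset.card s = h ∧ (∀ a ∈ s, a ∈ setA h k) ∧ s.sum = n},
      ∀ i < n + 1, s.count (w h k (i, 1)) + k * s.count (w h k (i, 2)) = P i ∧
        (s.count (w h k (i, 0)) : ℤ) = Q i + (k - 1) * s.count (w h k (i, 2)) := by
    rintro s ⟨b1, b2, b3⟩ i hi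
    obtain ⟨c1, c2⟩ := invariants hk hkh b2 b3 b1 a2 a3 a1 i hi
    refine ⟨c1, ?_⟩
    rw [hQ]
    simp only
    zify [show 1 ≤ k by omega] at c2
    linarith
  have hLU : ∀ s ∈ {s : Multiset ℕ | Multiset.card s = h ∧ (∀ a ∈ s, a ∈ setA h k) ∧ s.sum = n},
      ∀ i < n + 1, L i ≤ s.count (w h k (i, 2)) ∧ s.count (w h k (i, 2)) ≤ U i := by
    intro s hs i hi
    obtain ⟨c1, c2⟩ := hinv s hs i hi
    constructor
    · rw [hL]
      simp only
      rw [Nat.div_le_iff_le_mul_add_pred (by omega)]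
      have h1 : (-(Q i)).toNat ≤ (k - 1) * s.count (w h k (i, 2)) := by
        rw [Int.toNat_le]
        push_cast [show 1 ≤ k by omega]
        have : (0 : ℤ) ≤ s.count (w h k (i, 0)) := by positivity
        linarith
      omega
    · rw [hU]
      simp only
      rw [Nat.le_div_iff_mul_le (by omega)]
      nlinarith
  -- the map to the functions
  set Φ : Multiset ℕ → (Fin (n + 1) → ℕ) := fun s i => s.count (w h k (i, 2)) with hΦ
  have hinj : Set.InjOn Φ
      {s : Multiset ℕ | Multiset.card s = h ∧ (∀ a ∈ s, a ∈ setA h k) ∧ s.sum = n} := by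
    intro s hs t ht hst
    have h1 : ∀ i < n + 1, s.count (w h k (i, 2)) = t.count (w h k (i, 2)) := by
      intro i hi
      exact congrFun hst ⟨i, hi⟩
    obtain ⟨d1, _⟩ := sum_w hk hkh hs.2.1 hs.2.2
    obtain ⟨d2, _⟩ := sum_w hk hkh ht.2.1 ht.2.2
    ext a
    by_cases ha : a ∈ ((range (n + 1) ×ˢ (Finset.univ : Finset (Fin 3))).image (w h k))
    · rw [Finset.mem_image] at ha
      obtain ⟨⟨i, c⟩, hp, rfl⟩ := ha
      rw [Finset.mem_product, Finset.mem_range] at hp
      have hi : i < n + 1 := hp.1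
      obtain ⟨e1, e2⟩ := hinv s hs i hi
      obtain ⟨e3, e4⟩ := hinv t ht i hi
      have e5 := h1 i hi
      fin_cases c
      · show s.count (w h k (i, 0)) = t.count (w h k (i, 0))
        rw [e5] at e2
        have := e2.trans e4.symm
        exact_mod_cast this
      · show s.count (w h k (i, 1)) = t.count (w h k (i, 1))
        rw [e5] at e1
        omega
      · exact e5
    · rw [Multiset.count_eq_zero.2 (fun h => ha (d1 a h)),
        Multiset.count_eq_zero.2 (fun h => ha (d2 a h))]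
  have hmaps : ∀ s ∈ hfin.toFinset, Φ s ∈
      Fintype.piFinset (fun i : Fin (n + 1) => Finset.Icc (L i) (U i)) := by
    intro s hs
    rw [Set.Finite.mem_toFinset] at hs
    rw [Fintype.mem_piFinset]
    intro i
    rw [Finset.mem_Icc]
    exact hLU s hs i i.2
  have hcard := Finset.card_le_card_of_injOn Φ hmaps (by
    intro s hs t ht hst
    rw [Finset.mem_coe, Set.Finite.mem_toFinset] at hs ht
    exact hinj hs ht hst)
  rw [Set.ncard_eq_toFinset_card _ hfin]
  refine hcard.trans ?_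
  rw [Fintype.card_piFinset]
  have h1 : ∏ i : Fin (n + 1), (Finset.Icc (L i) (U i)).card ≤
      ∏ i : Fin (n + 1), 2 ^ (U i - L i) := by
    apply Finset.prod_le_prod' 
    intro i _
    rw [Nat.card_Icc]
    have : U i - L i < 2 ^ (U i - L i) := Nat.lt_two_pow_self
    have : 0 < 2 ^ (U i - L i) := by positivity
    omega
  refine h1.trans ?_
  rw [Finset.prod_pow_eq_pow_sum]
  apply Nat.pow_le_pow_right (by norm_num)
  rw [Nat.le_div_iff_mul_le (by omega), Finset.sum_mul]
  obtain ⟨_, hc⟩ := sum_card hk hkh a2 a3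
  rw [a1] at hc
  conv_rhs => rw [hc]
  rw [← Fin.sum_univ_eq_sum_range (fun i => s₀.count (w h k (i, 0)) + s₀.count (w h k (i, 1)) +
    s₀.count (w h k (i, 2))) (n + 1)]
  apply Finset.sum_le_sum
  intro i _
  -- k (U - L) ≤ P + Q
  have f1 : k * U i ≤ P i := Nat.mul_div_le _ _
  have f2 : -(Q i) ≤ (k - 1 : ℤ) * L i := by
    have g1 : (-(Q i)).toNat ≤ (k - 1) * L i := by
      rw [hL]
      simp only
      set X := (-(Q i)).toNat
      have := Nat.div_add_mod (X + (k - 2)) (k - 1)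
      have := Nat.mod_lt (X + (k - 2)) (show 0 < k - 1 by omega)
      omega
    have g2 := Int.self_le_toNat (-(Q i))
    have g3 : (((-(Q i)).toNat : ℕ) : ℤ) ≤ ((k - 1 : ℕ) : ℤ) * L i := by exact_mod_cast g1
    push_cast [show 1 ≤ k by omega] at g3
    linarith
  have f3 : (P i : ℤ) + Q i = s₀.count (w h k (i, 0)) + s₀.count (w h k (i, 1)) +
      s₀.count (w h k (i, 2)) := by
    rw [hP, hQ]
    push_cast
    ring
  rcases le_total (U i) (L i) with hle | hle
  · rw [Nat.sub_eq_zero_of_le hle, zero_mul]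
    exact Nat.zero_le _
  · zify [hle]
    have f4 : (k : ℤ) * U i ≤ P i := by exact_mod_cast f1
    have f5 : (0 : ℤ) ≤ L i := by positivity
    nlinarith

omit hk hkh in
/-- it is not a `B_k`-set up to finitely many elements -/
theorem not_IsB (hk : 2 ≤ k) (hkh : k ≤ h) (F : Finset ℕ) : ¬ IsB k (setA h k \ F) := by
  classical
  intro hB
  set i := F.sup id + 1 with hi
  have hnot : ∀ c : Fin 3, w h k (i, c) ∉ (F : Set ℕ) := by
    intro c hc
    have h1 : w h k (i, c) ≤ F.sup id := Finset.le_sup (f := id) hc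
    have h2 := le_w hk hkh (i, c)
    simp only at h2
    omega
  obtain ⟨b1, b2⟩ := bB_gt hk hkh
  have hkB : k ≤ k * bB h k := Nat.le_mul_of_pos_right k (by omega)
  have h1 := hB (Multiset.replicate k (w h k (i, 1)))
    (Multiset.replicate (k - 1) (w h k (i, 0)) + {w h k (i, 2)}) (by simp)
    (by rw [Multiset.card_add, Multiset.card_replicate, Multiset.card_singleton]; omega)
    (by
      intro a ha
      rw [Multiset.eq_of_mem_replicate ha]
      exact ⟨⟨_, rfl⟩, hnot 1⟩)
    (by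
      intro a ha
      rw [Multiset.mem_add, Multiset.mem_singleton] at ha
      rcases ha with ha | ha
      · rw [Multiset.eq_of_mem_replicate ha]
        exact ⟨⟨_, rfl⟩, hnot 0⟩
      · rw [ha]
        exact ⟨⟨_, rfl⟩, hnot 2⟩)
    (by
      rw [Multiset.sum_add, Multiset.sum_replicate, Multiset.sum_replicate,
        Multiset.sum_singleton, smul_eq_mul, smul_eq_mul]
      show k * (bB h k * (bB h k ^ 2) ^ i) = (k - 1) * (1 * (bB h k ^ 2) ^ i) +
        (k * bB h k - k + 1) * (bB h k ^ 2) ^ i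
      zify [hkB, show 1 ≤ k by omega]
      ring)
  have h2 : w h k (i, 2) ∈ Multiset.replicate k (w h k (i, 1)) := by
    rw [h1]
    simp
  have h3 := w_inj hk hkh (Multiset.eq_of_mem_replicate h2)
  simp at h3

end

end Pool.Agent.H601.T4
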